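import Pool.Agent.H93.PG.Targets

/-!
# Power-free shifts (`MP_32ebde_an`), row SA1: words which start and end with a given letter
-/

set_option autoImplicit false

open MeasureTheory Filter Topology Finset Pool.Agent.H93.PF Pool.Agent.H93.PG

namespace Pool.Agent.H8.PG

/-- A factor of a word without forbidden repetitions. -/
theorem gd_factor {A : Type} {m : ℕ → ℕ} {n : ℕ} {w : Fin n → A} (hw : Gd m w) (i j : ℕ)
    (h : i + j ≤ n) : Gd m (fun x : Fin j => w ⟨i + x, by omega⟩) := by
  intro q i' hq hi' hper
  refine hw q (i + i') hq (by omega) ?_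
  intro y hy h1 h2
  have h3 := hper (y - i) (by omega) (by omega) (by omega)
  have e1 : i + (y - i + q) = y + q := by omega
  have e2 : i + (y - i) = y := by omega
  simpa only [e1, e2] using h3

/-- Renaming the letters. -/
theorem gd_map {A B : Type} {m : ℕ → ℕ} {n : ℕ} {w : Fin n → A} (hw : Gd m w) (σ : A → B)
    (hσ : Function.Injective σ) : Gd m (fun x => σ (w x)) := by
  intro q i hq hi hper
  exact hw q i hq hi fun j h h1 h2 => hσ (hper j h h1 h2)

theorem spl' (hSPL : T_SPL) (d : ℕ) (m : ℕ → ℕ) (n i j k : ℕ) (h : i + j + k = n)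
    (S : Finset (Fin j → Fin d)) :
    ((FF d m n).filter fun w => (fun x : Fin j => w ⟨i + x, by omega⟩) ∈ S).card ≤
      (FF d m i).card * S.card * (FF d m k).card := by
  subst h
  exact hSPL d m i j k S

theorem two_letters (hSPL : T_SPL) {d : ℕ} {m : ℕ → ℕ} (t : Tail d m) (hY : t.Y = 1)
    (n i j k : ℕ) (h : i + (j + 1) + k = n) (a : Fin d) :
    ((FF d m n).filter fun w => w ⟨i, by omega⟩ = a ∧ w ⟨i + j, by omega⟩ = a).card ≤
      (FF d m i).card * (NN t (j + 1)).card * (FF d m k).card := by
  classical
  set S : Finset (Fin (j + 1) → Fin d) := univ.filter fun w => Gd m w ∧ w ⟨0, by omega⟩ = a ∧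
    w ⟨j, by omega⟩ = a with hS
  have hSc : S.card ≤ (NN t (j + 1)).card := by
    refine Finset.card_le_card_of_injOn (fun w x => Equiv.swap a (t.y 0) (w x)) ?_ ?_
    · intro w hw
      rw [hS, Finset.coe_filter] at hw
      obtain ⟨-, h1, h2, h3⟩ := hw
      rw [NN, Finset.coe_filter]
      refine ⟨Finset.mem_univ _, gd_map h1 _ (Equiv.injective _), ?_, ?_, ?_⟩
      · intro x hx hxY
        have hx0 : x = 0 := by omega
        subst hx0
        have e : t.Y - 1 - 0 = 0 := by omega
        show Equiv.swap a (t.y 0) (w ⟨0, hx⟩) = t.y (t.Y - 1 - 0)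
        rw [e, h2]
        exact Equiv.swap_apply_left _ _
      · omega
      · intro x hx hxY
        have hx0 : x = 0 := by omega
        subst hx0
        have e : (⟨j + 1 - t.Y + 0, hx⟩ : Fin (j + 1)) = ⟨j, by omega⟩ := by
          apply Fin.ext
          simp only
          omega
        show Equiv.swap a (t.y 0) (w ⟨j + 1 - t.Y + 0, hx⟩) = t.y 0
        rw [e, h3]
        exact Equiv.swap_apply_left _ _
    · intro w _ w' _ h4
      funext x
      exact (Equiv.swap a (t.y 0)).injective (congrFun h4 x)
  refine le_trans (Finset.card_le_card ?_) (le_trans (spl' hSPL d m n i (j + 1) k h S) ?_)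
  · intro w hw
    rw [Finset.mem_filter] at hw ⊢
    obtain ⟨h1, h2, h3⟩ := hw
    refine ⟨h1, ?_⟩
    rw [hS, Finset.mem_filter]
    rw [FF, Finset.mem_filter] at h1
    exact ⟨Finset.mem_univ _, gd_factor h1.2 i (j + 1) (by omega), h2, h3⟩
  · gcongr

theorem pf_SA1 (hSPL : T_SPL) : T_SA1 := by
  classical
  intro d m t H hGr hH hY ε hε C
  by_contra hcon
  push Not at hcon
  have hd : 0 < d := (t.y 0).pos
  have hdR : (0 : ℝ) < d := by exact_mod_cast hd
  have hC0 : 0 ≤ C := by
    have h1 := hcon 0
    simp only [Nat.cast_zero, mul_zero, Real.exp_zero, mul_one] at h1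
    exact le_trans (Nat.cast_nonneg _) h1
  set δ : ℝ := ε / (2 * d) with hδ
  have hδ0 : 0 < δ := by positivity
  obtain ⟨D, hD⟩ := hGr.upp δ hδ0
  have hD0 : 0 ≤ D := by
    have h1 := hD 0
    simp only [Nat.cast_zero, mul_zero, Real.exp_zero, mul_one] at h1
    exact le_trans (Nat.cast_nonneg _) h1
  have key : ∀ M : ℕ, Real.exp (ε * M / 2) ≤ ((d + 1) * (d + 1) * d : ℕ) * (D * C * D) := by
    intro M
    set n : ℕ := d * M + 1 with hn
    set P : Finset (ℕ × ℕ × Fin d) := ((range (d + 1)) ×ˢ ((range (d + 1)) ×ˢ
      (univ : Finset (Fin d)))).filter fun p => p.1 < p.2.1 with hP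
    have hPc : P.card ≤ (d + 1) * (d + 1) * d := by
      refine (Finset.card_filter_le _ _).trans (le_of_eq ?_)
      rw [Finset.card_product, Finset.card_product, Finset.card_range, Finset.card_univ,
        Fintype.card_fin, mul_assoc]
    let F : ℕ × ℕ × Fin d → Finset (Fin n → Fin d) := fun p => (FF d m n).filter fun w =>
      ∀ (h : p.2.1 * M < n) (h' : p.1 * M < n), w ⟨p.1 * M, h'⟩ = p.2.2 ∧
        w ⟨p.2.1 * M, h⟩ = p.2.2
    have hsub : FF d m n ⊆ P.biUnion F := by
      intro w hw
      have hb : ∀ x : Fin (d + 1), (x : ℕ) * M < n := fun x => by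
        have : (x : ℕ) * M ≤ d * M := Nat.mul_le_mul_right M (by omega)
        omega
      obtain ⟨x, y, hxy, hf⟩ := Fintype.exists_ne_map_eq_of_card_lt
        (fun x : Fin (d + 1) => w ⟨(x : ℕ) * M, hb x⟩) (by simp)
      have main : ∀ x y : Fin (d + 1), x < y → w ⟨(x : ℕ) * M, hb x⟩ = w ⟨(y : ℕ) * M, hb y⟩ →
          w ∈ P.biUnion F := by
        intro x y hlt hf
        rw [Finset.mem_biUnion]
        refine ⟨(x, y, w ⟨(x : ℕ) * M, hb x⟩), ?_, ?_⟩
        · rw [hP, Finset.mem_filter, Finset.mem_product, Finset.mem_product]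
          refine ⟨⟨Finset.mem_range.2 x.2, Finset.mem_range.2 y.2, Finset.mem_univ _⟩, hlt⟩
        · rw [Finset.mem_filter]
          exact ⟨hw, fun h h' => ⟨rfl, hf.symm⟩⟩
      rcases lt_or_gt_of_ne hxy with h | h
      · exact main x y h hf
      · exact main y x h hf.symm
    have hF : ∀ p ∈ P, ((F p).card : ℝ) ≤ (D * C * D) * Real.exp (H * n) *
        Real.exp (- (ε * M / 2)) := by
      rintro ⟨i, i', a⟩ hp
      rw [hP, Finset.mem_filter, Finset.mem_product, Finset.mem_product, Finset.mem_range,
        Finset.mem_range] at hp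
      obtain ⟨⟨hi, hi', -⟩, hii⟩ := hp
      simp only at hi hi' hii
      obtain ⟨s, rfl⟩ : ∃ s, i' = i + s := ⟨i' - i, by omega⟩
      obtain ⟨u, hu⟩ : ∃ u, d = i + s + u := ⟨d - (i + s), by omega⟩
      have hsum : i * M + (s * M + 1) + u * M = n := by
        rw [hn, hu]
        ring
      have h1 := two_letters hSPL t hY n (i * M) (s * M) (u * M) hsum a
      have h2 : ((F (i, i + s, a)).card : ℝ) ≤ ((FF d m (i * M)).card : ℝ) *
          (NN t (s * M + 1)).card * (FF d m (u * M)).card := by
        rw [← Nat.cast_mul, ← Nat.cast_mul, Nat.cast_le]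
        refine le_trans (Finset.card_le_card ?_) h1
        intro w hw
        rw [Finset.mem_filter] at hw ⊢
        obtain ⟨h3, h4⟩ := hw
        have hb1 : (i + s) * M < n := by
          rw [← hsum, add_mul]
          omega
        have hb2 : i * M < n := by
          rw [← hsum]
          omega
        obtain ⟨h5, h6⟩ := h4 hb1 hb2
        refine ⟨h3, h5, ?_⟩
        have e : (⟨i * M + s * M, by omega⟩ : Fin n) = ⟨(i + s) * M, hb1⟩ := by
          apply Fin.ext
          simp only
          ring
        rw [e]
        exact h6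
      refine h2.trans ?_
      calc ((FF d m (i * M)).card : ℝ) * (NN t (s * M + 1)).card * (FF d m (u * M)).card
          ≤ (D * Real.exp ((H + δ) * (i * M : ℕ))) *
            (C * Real.exp ((H - ε) * (s * M + 1 : ℕ))) *
            (D * Real.exp ((H + δ) * (u * M : ℕ))) := by
            gcongr
            · exact hD _
            · exact hcon _
            · exact hD _
        _ = (D * C * D) * (Real.exp ((H + δ) * (i * M : ℕ)) *
            Real.exp ((H - ε) * (s * M + 1 : ℕ)) * Real.exp ((H + δ) * (u * M : ℕ))) := by ring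
        _ ≤ (D * C * D) * (Real.exp (H * n) * Real.exp (- (ε * M / 2))) := by
            apply mul_le_mul_of_nonneg_left _ (by positivity)
            rw [← Real.exp_add, ← Real.exp_add, ← Real.exp_add]
            apply Real.exp_le_exp.2
            rw [← hsum]
            push_cast
            have hs1 : (1 : ℝ) ≤ s := by
              have : 1 ≤ s := by omega
              exact_mod_cast this
            have hiu : (i : ℝ) + u ≤ d := by
              rw [hu]
              push_cast
              linarith
            have hM0 : (0 : ℝ) ≤ M := Nat.cast_nonneg _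
            have h7 : δ * ((i + u) * M) ≤ ε / 2 * M := by
              have e : ε / 2 = δ * d := by
                rw [hδ]
                field_simp
              rw [e, mul_assoc]
              gcongr
            have h8 : ε * M ≤ ε * (s * M) := by
              have : (M : ℝ) ≤ s * M := by nlinarith
              exact mul_le_mul_of_nonneg_left this hε.le
            nlinarith
        _ = (D * C * D) * Real.exp (H * n) * Real.exp (- (ε * M / 2)) := by ring
    have h1 : ((FF d m n).card : ℝ) ≤ ((d + 1) * (d + 1) * d : ℕ) *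
        ((D * C * D) * Real.exp (H * n) * Real.exp (- (ε * M / 2))) := by
      calc ((FF d m n).card : ℝ) ≤ ((P.biUnion F).card : ℝ) := by
            exact_mod_cast Finset.card_le_card hsub
        _ ≤ ∑ p ∈ P, ((F p).card : ℝ) := by
            exact_mod_cast Finset.card_biUnion_le
        _ ≤ ∑ _p ∈ P, (D * C * D) * Real.exp (H * n) * Real.exp (- (ε * M / 2)) :=
            Finset.sum_le_sum hF
        _ = P.card * ((D * C * D) * Real.exp (H * n) * Real.exp (- (ε * M / 2))) := by
            rw [Finset.sum_const, nsmul_eq_mul]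
        _ ≤ _ := by
            apply mul_le_mul_of_nonneg_right _ (by positivity)
            exact_mod_cast hPc
    have h2 := (hGr.low n).trans h1
    have h3 : Real.exp (H * n) * Real.exp (ε * M / 2) ≤
        Real.exp (H * n) * (((d + 1) * (d + 1) * d : ℕ) * (D * C * D)) := by
      calc Real.exp (H * n) * Real.exp (ε * M / 2) ≤ (((d + 1) * (d + 1) * d : ℕ) *
          ((D * C * D) * Real.exp (H * n) * Real.exp (- (ε * M / 2)))) * Real.exp (ε * M / 2) := by
            gcongr
        _ = Real.exp (H * n) * (((d + 1) * (d + 1) * d : ℕ) * (D * C * D)) *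
            (Real.exp (- (ε * M / 2)) * Real.exp (ε * M / 2)) := by ring
        _ = _ := by rw [← Real.exp_add, neg_add_cancel, Real.exp_zero, mul_one]
    exact le_of_mul_le_mul_left h3 (Real.exp_pos _)
  set K : ℝ := ((d + 1) * (d + 1) * d : ℕ) * (D * C * D) with hK
  obtain ⟨M, hM⟩ := exists_nat_gt (K * 2 / ε)
  have h1 := key M
  have h2 : K < ε * M / 2 := by
    rw [div_lt_iff₀ hε] at hM
    linarith
  have h3 := Real.add_one_le_exp (ε * M / 2)
  linarith

end Pool.Agent.H8.PG
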