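import Pool.Agent.H8.PG.SA1

/-!
# Power-free shifts (`MP_32ebde_an`), row SA2B: words which start and end with `eee`
-/

set_option autoImplicit false

open MeasureTheory Filter Topology Finset Pool.Agent.H93.PF Pool.Agent.H93.PG

namespace Pool.Agent.H8.PG

theorem fin2_eq : ∀ a b c : Fin 2, a ≠ b → b ≠ c → a = c := by decide

/-- (3.3) (i): the word `e w e`. -/
theorem gd_eve {m : ℕ → ℕ} (hm : ∀ q, 0 < q → 3 * q + 1 ≤ m q) (l : ℕ) (hl : 3 ≤ l) (e : Fin 2)
    (P : ℕ → Fin 2) (hGd : Gd m (fun x : Fin l => P (x + 1)))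
    (hcub : ∀ x, 1 ≤ x → x + 2 ≤ l → ¬ (P x = P (x + 1) ∧ P (x + 1) = P (x + 2)))
    (h0 : P 0 = e) (h1 : P 1 = e) (h2 : P 2 = e) (h3 : P 3 ≠ e)
    (k0 : P (l + 1) = e) (k1 : P l = e) (k2 : P (l - 1) = e) (k3 : P (l - 2) ≠ e) :
    Gd m (fun x : Fin (l + 2) => P x) := by
  intro q i hq hi hper
  have hp : ∀ j, i ≤ j → j + q < i + m q → P (j + q) = P j := fun j hj hj2 =>
    hper j (by omega) hj hj2
  have hmq := hm q hq
  rcases Nat.eq_zero_or_pos i with hi0 | hi0
  · subst hi0
    rcases Nat.lt_or_ge q 2 with hq2 | hq2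
    · have hq1 : q = 1 := by omega
      subst hq1
      have := hp 2 (by omega) (by omega)
      exact h3 (this.trans h2)
    · have a0 := hp 0 le_rfl (by omega)
      have a1 := hp 1 (by omega) (by omega)
      have a2 := hp 2 (by omega) (by omega)
      rw [h0, Nat.zero_add] at a0
      rw [h1, Nat.add_comm] at a1
      rw [h2, Nat.add_comm] at a2
      rcases Nat.lt_or_ge l (q + 2) with hlq | hlq
      · omega
      · exact hcub q (by omega) hlq ⟨by rw [a0, a1], by rw [a1, a2]⟩
  · rcases Nat.lt_or_ge (i + m q) (l + 2) with hend | hend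
    · refine hGd q (i - 1) hq (by omega) ?_
      intro j hj hj1 hj2
      have := hp (j + 1) (by omega) (by omega)
      rw [show j + 1 + q = j + q + 1 by omega] at this
      exact this
    · have hend : i + m q = l + 2 := by omega
      rcases Nat.lt_or_ge q 2 with hq2 | hq2
      · have hq1 : q = 1 := by omega
        subst hq1
        have := hp (l - 2) (by omega) (by omega)
        rw [show l - 2 + 1 = l - 1 by omega, k2] at this
        exact k3 this.symm
      · have a0 := hp (l + 1 - q) (by omega) (by omega)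
        have a1 := hp (l - q) (by omega) (by omega)
        have a2 := hp (l - 1 - q) (by omega) (by omega)
        rw [show l + 1 - q + q = l + 1 by omega, k0] at a0
        rw [show l - q + q = l by omega, k1] at a1
        rw [show l - 1 - q + q = l - 1 by omega, k2] at a2
        refine hcub (l - 1 - q) (by omega) (by omega) ?_
        rw [show l - 1 - q + 1 = l - q by omega, show l - 1 - q + 2 = l + 1 - q by omega]
        exact ⟨by rw [← a2, ← a1], by rw [← a1, ← a0]⟩

open Classical in
/-- words without cubes of letters which start with `a a a'` and end with `a' a a` -/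
noncomputable def SS (m : ℕ → ℕ) (l : ℕ) (a : Fin 2) : Finset (Fin l → Fin 2) :=
  univ.filter fun w => Gd m w ∧ (∀ (i : ℕ) (h : i + 2 < l),
      ¬ (w ⟨i, by omega⟩ = w ⟨i + 1, by omega⟩ ∧ w ⟨i + 1, by omega⟩ = w ⟨i + 2, h⟩)) ∧
    (∀ (i : ℕ) (h : i < l), (i < 2 → w ⟨i, h⟩ = a) ∧ (i = 2 → w ⟨i, h⟩ ≠ a) ∧
      (l ≤ i + 2 → w ⟨i, h⟩ = a) ∧ (l = i + 3 → w ⟨i, h⟩ ≠ a))

theorem card_SS_le {m : ℕ → ℕ} (hm : ∀ q, 0 < q → 3 * q + 1 ≤ m q) (c : CT 2 m)
    (hY : c.t.Y = 3) (l : ℕ) (hl : 3 ≤ l) (a : Fin 2) :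
    (SS m l a).card ≤ (NN c.t (l + 2)).card := by
  classical
  set e := c.e with he
  let P : (Fin l → Fin 2) → ℕ → Fin 2 := fun w x =>
    if h : 1 ≤ x ∧ x ≤ l then Equiv.swap a e (w ⟨x - 1, by omega⟩) else e
  have hP : ∀ (w : Fin l → Fin 2) (x : ℕ) (h : x < l), P w (x + 1) = Equiv.swap a e (w ⟨x, h⟩) := by
    intro w x h
    have : 1 ≤ x + 1 ∧ x + 1 ≤ l := by omega
    simp only [P, dif_pos this]
    rfl
  refine Finset.card_le_card_of_injOn (fun w (x : Fin (l + 2)) => P w x) ?_ ?_
  · intro w hw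
    rw [SS, Finset.coe_filter] at hw
    obtain ⟨-, hw1, hw2, hw3⟩ := hw
    have hne : ∀ x, x ≠ a → Equiv.swap a e x ≠ e := by
      intro x hx h
      apply hx
      apply (Equiv.swap a e).injective
      rw [h, Equiv.swap_apply_left]
    have h0 : P w 0 = e := by
      simp only [P]
      rw [dif_neg (by omega)]
    have k0 : P w (l + 1) = e := by
      simp only [P]
      rw [dif_neg (by omega)]
    have h1 : P w 1 = e := by
      rw [hP w 0 (by omega), (hw3 0 (by omega)).1 (by omega), Equiv.swap_apply_left]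
    have h2 : P w 2 = e := by
      rw [hP w 1 (by omega), (hw3 1 (by omega)).1 (by omega), Equiv.swap_apply_left]
    have h3 : P w 3 ≠ e := by
      rw [hP w 2 (by omega)]
      exact hne _ ((hw3 2 (by omega)).2.1 rfl)
    have k1 : P w l = e := by
      obtain ⟨l', rfl⟩ : ∃ l', l = l' + 1 := ⟨l - 1, by omega⟩
      rw [hP w l' (by omega), (hw3 l' (by omega)).2.2.1 (by omega), Equiv.swap_apply_left]
    have k2 : P w (l - 1) = e := by
      have e1 : l - 1 = (l - 2) + 1 := by omega
      rw [e1, hP w (l - 2) (by omega), (hw3 (l - 2) (by omega)).2.2.1 (by omega),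
        Equiv.swap_apply_left]
    have k3 : P w (l - 2) ≠ e := by
      have e1 : l - 2 = (l - 3) + 1 := by omega
      rw [e1, hP w (l - 3) (by omega)]
      exact hne _ ((hw3 (l - 3) (by omega)).2.2.2 (by omega))
    have hgd : Gd m (fun x : Fin (l + 2) => P w x) := by
      refine gd_eve hm l hl e (P w) ?_ ?_ h0 h1 h2 h3 k0 k1 k2 k3
      · have : (fun x : Fin l => P w (x + 1)) = fun x => Equiv.swap a e (w x) := by
          funext x
          exact hP w x x.2
        rw [this]
        exact gd_map hw1 _ (Equiv.injective _)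
      · rintro x hx hx2 ⟨h4, h5⟩
        obtain ⟨y, rfl⟩ : ∃ y, x = y + 1 := ⟨x - 1, by omega⟩
        rw [show y + 1 + 2 = (y + 2) + 1 by omega, hP w (y + 1) (by omega),
          hP w (y + 2) (by omega)] at h5
        rw [hP w (y + 1) (by omega), hP w y (by omega)] at h4
        exact hw2 y (by omega) ⟨(Equiv.swap a e).injective h4, (Equiv.swap a e).injective h5⟩
    rw [NN, Finset.coe_filter]
    refine ⟨Finset.mem_univ _, hgd, ?_, ?_, ?_⟩
    · intro x hx hxY
      show P w x = _
      rw [c.ye]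
      have : x = 0 ∨ x = 1 ∨ x = 2 := by omega
      rcases this with rfl | rfl | rfl
      · exact h0
      · exact h1
      · exact h2
    · omega
    · intro x hx hxY
      show P w (l + 2 - c.t.Y + x) = _
      rw [c.ye]
      have : x = 0 ∨ x = 1 ∨ x = 2 := by omega
      rcases this with rfl | rfl | rfl
      · rw [show l + 2 - c.t.Y + 0 = l - 1 by omega]
        exact k2
      · rw [show l + 2 - c.t.Y + 1 = l by omega]
        exact k1
      · rw [show l + 2 - c.t.Y + 2 = l + 1 by omega]
        exact k0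
  · intro w _ w' _ h4
    funext x
    have h5 := congrFun h4 ⟨x + 1, by omega⟩
    simp only at h5
    rw [hP w x x.2, hP w' x x.2] at h5
    exact (Equiv.swap a e).injective h5

/-- (3.3) (ii) -/
theorem exists_win {m : ℕ → ℕ} (n : ℕ) (W : ℕ → Fin 2) (hGd : Gd m (fun x : Fin n => W x))
    (hcub : ∀ x, x + 2 < n → ¬ (W x = W (x + 1) ∧ W (x + 1) = W (x + 2))) (s : ℕ)
    (hs : s + m 2 + 2 ≤ n) :
    ∃ x, s + 1 ≤ x ∧ x + 2 < s + m 2 + 2 ∧ W x = W (x + 1) ∧ W (x - 1) ≠ W x ∧
      W (x + 2) ≠ W x := by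
  by_contra hcon
  push Not at hcon
  have key : ∀ x, s + 1 ≤ x → x + 2 < s + m 2 + 2 → W x ≠ W (x + 1) := by
    intro x hx hx2 h
    refine hcub x (by omega) ⟨h, ?_⟩
    rw [← h]
    refine (hcon x hx hx2 h ?_).symm
    intro h3
    refine hcub (x - 1) (by omega) ?_
    rw [show x - 1 + 1 = x by omega, show x - 1 + 2 = x + 1 by omega]
    exact ⟨h3, h⟩
  refine hGd 2 (s + 1) (by omega) (by omega) ?_
  intro j hj h1 h2
  have h3 := key j h1 (by omega)
  have h4 := key (j + 1) (by omega) (by omega)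
  exact (fin2_eq _ _ _ h3 h4).symm

theorem too_many (ε K : ℝ) (hε : 0 < ε) (hK : 0 ≤ K) (M0 : ℕ) :
    ∃ M : ℕ, M0 ≤ M ∧ K * (5 * M + 1) ^ 2 < Real.exp (ε * M / 2) := by
  obtain ⟨M1, hM1⟩ := exists_nat_gt (K * 36 * 48 / ε ^ 3)
  refine ⟨M0 + M1 + 1, by omega, ?_⟩
  set M : ℕ := M0 + M1 + 1 with hM
  have hMR : (1 : ℝ) ≤ M := by
    have : 1 ≤ M := by omega
    exact_mod_cast this
  have h1 : K * 36 * 48 / ε ^ 3 < M := by
    refine hM1.trans_le ?_
    have : M1 ≤ M := by omega
    exact_mod_cast this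
  rw [div_lt_iff₀ (by positivity)] at h1
  have h2 := Real.pow_div_factorial_le_exp (ε * M / 2) (by positivity) 3
  refine lt_of_lt_of_le ?_ h2
  have h3 : (5 * (M : ℝ) + 1) ^ 2 ≤ 36 * (M : ℝ) ^ 2 := by nlinarith
  calc K * (5 * M + 1) ^ 2 ≤ K * (36 * (M : ℝ) ^ 2) := by gcongr
    _ = (K * 36 * 48) * ((M : ℝ) ^ 2 / 48) := by ring
    _ < ((M : ℝ) * ε ^ 3) * ((M : ℝ) ^ 2 / 48) := by
        apply mul_lt_mul_of_pos_right h1
        positivity
    _ = (ε * M / 2) ^ 3 / (Nat.factorial 3 : ℕ) := by
        have : (Nat.factorial 3 : ℕ) = 6 := by decide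
        rw [this]
        push_cast
        ring

theorem pf_SA2B (hSPL : T_SPL) : T_SA2B := by
  classical
  intro m c H hm hGr hY hEE ε hε C
  by_contra hcon
  push Not at hcon
  have hC0 : 0 ≤ C := by
    have h1 := hcon 0
    simp only [Nat.cast_zero, mul_zero, Real.exp_zero, mul_one] at h1
    exact le_trans (Nat.cast_nonneg _) h1
  obtain ⟨D, hD⟩ := hGr.upp (ε / 10) (by positivity)
  have hD0 : 0 ≤ D := by
    have h1 := hD 0
    simp only [Nat.cast_zero, mul_zero, Real.exp_zero, mul_one] at h1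
    exact le_trans (Nat.cast_nonneg _) h1
  set K : ℝ := D * C * D * Real.exp (2 * (H - ε)) with hK
  have hK0 : 0 ≤ K := by positivity
  obtain ⟨M, hM0, hM⟩ := too_many ε (2 * K) hε (by positivity) (m 2 + 3)
  set n : ℕ := 5 * M with hn
  set P : Finset (ℕ × ℕ × Fin 2) := ((range (5 * M + 1)) ×ˢ ((range (5 * M + 1)) ×ˢ
    (univ : Finset (Fin 2)))).filter fun p => p.1 + p.2.1 ≤ n ∧ M ≤ p.2.1 with hP
  have hPc : P.card ≤ (5 * M + 1) ^ 2 * 2 := by
    refine (Finset.card_filter_le _ _).trans (le_of_eq ?_)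
    rw [Finset.card_product, Finset.card_product, Finset.card_range, Finset.card_univ,
      Fintype.card_fin]
    ring
  let F : ℕ × ℕ × Fin 2 → Finset (Fin n → Fin 2) := fun p => (FF 2 m n).filter fun w =>
    ∃ h : p.1 + p.2.1 ≤ n, (fun y : Fin p.2.1 => w ⟨p.1 + y, by omega⟩) ∈ SS m p.2.1 p.2.2
  have hsub : EE m n ⊆ P.biUnion F := by
    intro w hw
    rw [EE, Finset.mem_filter] at hw
    obtain ⟨hwF, hwc⟩ := hw
    have hwG : Gd m w := by
      rw [FF, Finset.mem_filter] at hwF
      exact hwF.2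
    let W : ℕ → Fin 2 := fun x => if h : x < n then w ⟨x, h⟩ else 0
    have hW : ∀ x (h : x < n), W x = w ⟨x, h⟩ := fun x h => by
      simp only [W, dif_pos h]
    have hWw : (fun x : Fin n => W x) = w := by
      funext x
      exact hW x x.2
    have hGd : Gd m (fun x : Fin n => W x) := by
      rw [hWw]
      exact hwG
    have hcub : ∀ x, x + 2 < n → ¬ (W x = W (x + 1) ∧ W (x + 1) = W (x + 2)) := by
      intro x hx
      rw [hW x (by omega), hW (x + 1) (by omega), hW (x + 2) hx]
      exact hwc x hx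
    have main : ∀ x x' : ℕ, x + M ≤ x' → x' + 2 < n → 1 ≤ x → W x = W (x + 1) →
        W (x + 2) ≠ W x → W (x' - 1) ≠ W x' → W x' = W (x' + 1) → W x = W x' →
        w ∈ P.biUnion F := by
      intro x x' hxx hx' hx1 a1 a2 a3 a4 a5
      rw [Finset.mem_biUnion]
      obtain ⟨l, hl⟩ : ∃ l, x + l = x' + 2 := ⟨x' + 2 - x, by omega⟩
      refine ⟨(x, l, W x), ?_, ?_⟩
      · rw [hP, Finset.mem_filter, Finset.mem_product, Finset.mem_product]
        refine ⟨⟨Finset.mem_range.2 ?_, Finset.mem_range.2 ?_, Finset.mem_univ _⟩, ?_, ?_⟩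
        · show x < 5 * M + 1
          omega
        · show l < 5 * M + 1
          omega
        · show x + l ≤ n
          omega
        · show M ≤ l
          omega
      · rw [Finset.mem_filter]
        have hln : x + l ≤ n := by omega
        refine ⟨hwF, hln, ?_⟩
        show (fun y : Fin l => w ⟨x + y, by omega⟩) ∈ SS m l (W x)
        rw [SS, Finset.mem_filter]
        refine ⟨Finset.mem_univ _, gd_factor hwG x l hln, ?_, ?_⟩
        · intro i hi
          exact hwc (x + i) (by omega)
        · intro i hi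
          show (i < 2 → w ⟨x + i, by omega⟩ = W x) ∧ (i = 2 → w ⟨x + i, by omega⟩ ≠ W x) ∧
            (l ≤ i + 2 → w ⟨x + i, by omega⟩ = W x) ∧ (l = i + 3 → w ⟨x + i, by omega⟩ ≠ W x)
          rw [← hW (x + i) (by omega)]
          refine ⟨?_, ?_, ?_, ?_⟩
          · intro h
            have : i = 0 ∨ i = 1 := by omega
            rcases this with rfl | rfl
            · rfl
            · exact a1.symm
          · rintro rfl
            exact a2
          · intro h
            have : x + i = x' ∨ x + i = x' + 1 := by omega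
            rcases this with h5 | h5
            · rw [h5, a5]
            · rw [h5, a5, a4]
          · intro h
            have : x + i = x' - 1 := by omega
            rw [this, a5]
            exact a3
    obtain ⟨x0, b0, c0, d0, e0, f0⟩ := exists_win n W hGd hcub 0 (by omega)
    obtain ⟨x2, b2, c2, d2, e2, f2⟩ := exists_win n W hGd hcub (2 * M) (by omega)
    obtain ⟨x4, b4, c4, d4, e4, f4⟩ := exists_win n W hGd hcub (4 * M) (by omega)
    by_cases h02 : W x0 = W x2
    · exact main x0 x2 (by omega) (by omega) (by omega) d0 f0 e2 d2 h02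
    · by_cases h24 : W x2 = W x4
      · exact main x2 x4 (by omega) (by omega) (by omega) d2 f2 e4 d4 h24
      · exact main x0 x4 (by omega) (by omega) (by omega) d0 f0 e4 d4 (fin2_eq _ _ _ h02 h24)
  have hF : ∀ p ∈ P, ((F p).card : ℝ) ≤ K * Real.exp (H * n) * Real.exp (- (ε * M / 2)) := by
    rintro ⟨x, l, a⟩ hp
    rw [hP, Finset.mem_filter] at hp
    obtain ⟨-, hxl, hlM⟩ := hp
    simp only at hxl hlM
    obtain ⟨k, hk⟩ : ∃ k, x + l + k = n := ⟨n - (x + l), by omega⟩
    have h1 := spl' hSPL 2 m n x l k hk (SS m l a)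
    have h2 : ((F (x, l, a)).card : ℝ) ≤ ((FF 2 m x).card : ℝ) * (NN c.t (l + 2)).card *
        (FF 2 m k).card := by
      rw [← Nat.cast_mul, ← Nat.cast_mul, Nat.cast_le]
      refine le_trans (Finset.card_le_card ?_) (h1.trans ?_)
      · intro w hw
        rw [Finset.mem_filter] at hw ⊢
        obtain ⟨h3, _, h4⟩ := hw
        exact ⟨h3, h4⟩
      · have := card_SS_le hm c hY l (by omega) a
        gcongr
    refine h2.trans ?_
    calc ((FF 2 m x).card : ℝ) * (NN c.t (l + 2)).card * (FF 2 m k).card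
        ≤ (D * Real.exp ((H + ε / 10) * (x : ℕ))) *
          (C * Real.exp ((H - ε) * (l + 2 : ℕ))) *
          (D * Real.exp ((H + ε / 10) * (k : ℕ))) := by
          gcongr
          · exact hD _
          · exact hcon _
          · exact hD _
      _ = (D * C * D) * (Real.exp ((H + ε / 10) * (x : ℕ)) *
          Real.exp ((H - ε) * (l + 2 : ℕ)) * Real.exp ((H + ε / 10) * (k : ℕ))) := by ring
      _ ≤ (D * C * D) * (Real.exp (2 * (H - ε)) * Real.exp (H * n) *
          Real.exp (- (ε * M / 2))) := by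
          apply mul_le_mul_of_nonneg_left _ (by positivity)
          rw [← Real.exp_add, ← Real.exp_add, ← Real.exp_add, ← Real.exp_add]
          apply Real.exp_le_exp.2
          have hnR : (n : ℝ) = x + l + k := by
            rw [← hk]
            push_cast
            ring
          have hn5 : (n : ℝ) = 5 * M := by
            rw [hn]
            push_cast
            ring
          have hlR : (M : ℝ) ≤ l := by exact_mod_cast hlM
          have hxk : (x : ℝ) + k ≤ 5 * M := by
            rw [← hn5, hnR]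
            have : (0 : ℝ) ≤ l := Nat.cast_nonneg _
            linarith
          push_cast
          rw [hnR]
          have h7 : ε / 10 * ((x : ℝ) + k) ≤ ε / 10 * (5 * M) := by gcongr
          have h8 : ε * (M : ℝ) ≤ ε * l := by gcongr
          nlinarith
      _ = K * Real.exp (H * n) * Real.exp (- (ε * M / 2)) := by
          rw [hK]
          ring
  have h1 : ((EE m n).card : ℝ) ≤ ((5 * M + 1) ^ 2 * 2 : ℕ) *
      (K * Real.exp (H * n) * Real.exp (- (ε * M / 2))) := by
    calc ((EE m n).card : ℝ) ≤ ((P.biUnion F).card : ℝ) := by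
          exact_mod_cast Finset.card_le_card hsub
      _ ≤ ∑ p ∈ P, ((F p).card : ℝ) := by
          exact_mod_cast Finset.card_biUnion_le
      _ ≤ ∑ _p ∈ P, K * Real.exp (H * n) * Real.exp (- (ε * M / 2)) :=
          Finset.sum_le_sum hF
      _ = P.card * (K * Real.exp (H * n) * Real.exp (- (ε * M / 2))) := by
          rw [Finset.sum_const, nsmul_eq_mul]
      _ ≤ _ := by
          apply mul_le_mul_of_nonneg_right _ (by positivity)
          exact_mod_cast hPc
  have h2 := (hEE n).trans h1
  have h3 : Real.exp (H * n) * Real.exp (ε * M / 2) ≤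
      Real.exp (H * n) * (2 * K * (5 * M + 1) ^ 2) := by
    calc Real.exp (H * n) * Real.exp (ε * M / 2) ≤ (((5 * M + 1) ^ 2 * 2 : ℕ) *
        (K * Real.exp (H * n) * Real.exp (- (ε * M / 2)))) * Real.exp (ε * M / 2) := by
          gcongr
      _ = Real.exp (H * n) * (2 * K * (5 * M + 1) ^ 2) *
          (Real.exp (- (ε * M / 2)) * Real.exp (ε * M / 2)) := by
          push_cast
          ring
      _ = _ := by rw [← Real.exp_add, neg_add_cancel, Real.exp_zero, mul_one]
  have h4 := le_of_mul_le_mul_left h3 (Real.exp_pos _)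
  linarith

end Pool.Agent.H8.PG
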